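import Mathlib
import Pool.Agent.H434.Core2

/-!
Spectral variation of commuting Hermitian tuples: the constant `C_K` is finite for every `K`,
with the explicit linear bound `C_K ≤ (4 √3 / π) K < 2.206 K`.
-/

set_option autoImplicit false

open scoped ENNReal InnerProductSpace

namespace Pool.Agent.Results.MP_434093_an.LinearBound

/-- The space of complex column vectors of length `n` with its Euclidean norm. -/
abbrev Cn (n : ℕ) : Type := EuclideanSpace ℂ (Fin n)

/-- A `K`-tuple of pairwise commuting Hermitian complex `n × n` matrices. -/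
structure HTuple (K n : ℕ) where
  /-- the matrices -/
  mat : Fin K → Matrix (Fin n) (Fin n) ℂ
  /-- they are Hermitian -/
  herm : ∀ J, (mat J).IsHermitian
  /-- they commute pairwise -/
  comm : ∀ J L, Commute (mat J) (mat L)

/-- `α` lists the joint eigenvalues of the tuple `A` with multiplicity: there is an orthonormal
basis `u` of joint eigenvectors with `A^(J) u_j = α_j^(J) u_j`. -/
def IsJointSpectrum {K n : ℕ} (A : HTuple K n) (α : Fin n → EuclideanSpace ℝ (Fin K)) : Prop :=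
  ∃ u : OrthonormalBasis (Fin n) ℂ (Cn n),
    ∀ j J, Matrix.toEuclideanLin (A.mat J) (u j) = ((α j J : ℝ) : ℂ) • u j

/-- The optimal matching distance of two lists of points of Euclidean space. -/
noncomputable def delta {K n : ℕ} (α β : Fin n → EuclideanSpace ℝ (Fin K)) : ℝ :=
  ⨅ σ : Equiv.Perm (Fin n), ⨆ j, ‖α j - β (σ j)‖

/-- The norm of `((A^(1) - B^(1)) x, …, (A^(K) - B^(K)) x)` in the Hilbert sum of `K` copies. -/
noncomputable def diffNorm {K n : ℕ} (A B : HTuple K n) (x : Cn n) : ℝ :=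
  √(∑ J, ‖Matrix.toEuclideanLin (A.mat J - B.mat J) x‖ ^ 2)

/-- The distance `‖A - B‖`: the operator norm of `x ↦ ((A^(1) - B^(1)) x, …, (A^(K) - B^(K)) x)`,
that is the least `c ≥ 0` such that the norm of the image of `x` is at most `c ‖x‖` for all `x`. -/
noncomputable def opDist {K n : ℕ} (A B : HTuple K n) : ℝ :=
  sInf {c : ℝ | 0 ≤ c ∧ ∀ x : Cn n, diffNorm A B x ≤ c * ‖x‖}

/-- `c` is admissible if `δ(A, B) ≤ c ‖A - B‖` for all sizes `n ≥ 1` and all pairs of tuples. -/
def Admissible (K : ℕ) (c : ℝ≥0∞) : Prop :=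
  ∀ n : ℕ, 1 ≤ n → ∀ (A B : HTuple K n) (α β : Fin n → EuclideanSpace ℝ (Fin K)),
    IsJointSpectrum A α → IsJointSpectrum B β →
      ENNReal.ofReal (delta α β) ≤ c * ENNReal.ofReal (opDist A B)

/-- The spectral variation constant `C_K`, an element of `[0, ∞]`. -/
noncomputable def CK (K : ℕ) : ℝ≥0∞ := sInf {c | Admissible K c}

lemma opDist_nonneg {K n : ℕ} (A B : HTuple K n) : 0 ≤ opDist A B :=
  Real.sInf_nonneg fun _ hc => hc.1

lemma diffNorm_le {K n : ℕ} (A B : HTuple K n) (y : Cn n) :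
    diffNorm A B y ≤ opDist A B * ‖y‖ := by
  have hne : {c : ℝ | 0 ≤ c ∧ ∀ x : Cn n, diffNorm A B x ≤ c * ‖x‖}.Nonempty := by
    refine ⟨∑ J, ‖LinearMap.toContinuousLinearMap
      (Matrix.toEuclideanLin (A.mat J - B.mat J))‖, ?_, ?_⟩
    · exact Finset.sum_nonneg fun _ _ => norm_nonneg _
    · intro x
      rw [diffNorm, Real.sqrt_le_left (by positivity), Finset.sum_mul]
      calc ∑ J, ‖Matrix.toEuclideanLin (A.mat J - B.mat J) x‖ ^ 2
          ≤ ∑ J, (‖LinearMap.toContinuousLinearMap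
              (Matrix.toEuclideanLin (A.mat J - B.mat J))‖ * ‖x‖) ^ 2 := by
            refine Finset.sum_le_sum fun J _ => pow_le_pow_left₀ (norm_nonneg _) ?_ 2
            exact (LinearMap.toContinuousLinearMap
              (Matrix.toEuclideanLin (A.mat J - B.mat J))).le_opNorm x
        _ ≤ _ := Finset.sum_sq_le_sq_sum_of_nonneg fun _ _ => by positivity
  by_cases hy : y = 0
  · subst hy
    simp [diffNorm]
  · have hy' : 0 < ‖y‖ := norm_pos_iff.2 hy
    rw [← div_le_iff₀ hy']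
    refine le_csInf hne fun c hc => ?_
    rw [div_le_iff₀ hy']
    exact hc.2 y

lemma delta_le {K n : ℕ} (hK : 1 ≤ K) (A B : HTuple K n)
    (α β : Fin n → EuclideanSpace ℝ (Fin K)) (hα : IsJointSpectrum A α)
    (hβ : IsJointSpectrum B β) : delta α β ≤ 4 * √3 / Real.pi * K * opDist A B := by
  obtain ⟨u, hu⟩ := hα
  obtain ⟨v, hv⟩ := hβ
  have hop0 : 0 ≤ opDist A B := opDist_nonneg A B
  have hD : ∀ y : Cn n, ∑ J, ‖Matrix.toEuclideanLin (B.mat J) y -
      Matrix.toEuclideanLin (A.mat J) y‖ ^ 2 ≤ (opDist A B * ‖y‖) ^ 2 := by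
    intro y
    have h1 := diffNorm_le A B y
    have h2 : diffNorm A B y ^ 2 = ∑ J, ‖Matrix.toEuclideanLin (B.mat J) y -
        Matrix.toEuclideanLin (A.mat J) y‖ ^ 2 := by
      rw [diffNorm, Real.sq_sqrt (Finset.sum_nonneg fun _ _ => sq_nonneg _)]
      refine Finset.sum_congr rfl fun J _ => ?_
      rw [map_sub, LinearMap.sub_apply, norm_sub_rev]
    rw [← h2]
    exact pow_le_pow_left₀ (Real.sqrt_nonneg _) h1 2
  refine le_of_forall_gt_imp_ge_of_dense fun d hd => ?_
  obtain ⟨σ, hσ⟩ := Pool.Agent.H434.matching2 (lt_of_lt_of_le one_pos hK) u v α β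
    (fun J => Matrix.toEuclideanLin (A.mat J)) (fun J => Matrix.toEuclideanLin (B.mat J))
    hu hv (opDist A B) hop0 hD d hd
  have hd0 : 0 ≤ d := le_trans (by positivity) hd.le
  have hbdd : BddBelow (Set.range fun σ : Equiv.Perm (Fin n) => ⨆ j, ‖α j - β (σ j)‖) :=
    (Set.finite_range _).bddBelow
  refine (ciInf_le hbdd σ).trans ?_
  exact Real.iSup_le (fun j => (hσ j).le) hd0

/-- For every `K ≥ 1` the inequality `δ(A, B) ≤ (4 √3 / π) K ‖A - B‖` holds for all sizes and all pairs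
of commuting Hermitian `K`-tuples, so `C_K ≤ (4 √3 / π) K`, and `C_K` is finite. -/
theorem result (K : ℕ) (hK : 1 ≤ K) :
    (∀ n : ℕ, 1 ≤ n → ∀ (A B : HTuple K n) (α β : Fin n → EuclideanSpace ℝ (Fin K)),
      IsJointSpectrum A α → IsJointSpectrum B β → delta α β ≤ 4 * √3 / Real.pi * K * opDist A B) ∧
    CK K ≤ ENNReal.ofReal (4 * √3 / Real.pi * K) ∧ CK K < ⊤ := by
  have h1 : ∀ n : ℕ, 1 ≤ n → ∀ (A B : HTuple K n) (α β : Fin n → EuclideanSpace ℝ (Fin K)),
      IsJointSpectrum A α → IsJointSpectrum B β → delta α β ≤ 4 * √3 / Real.pi * K * opDist A B :=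
    fun n _ A B α β hα hβ => delta_le hK A B α β hα hβ
  have h2 : CK K ≤ ENNReal.ofReal (4 * √3 / Real.pi * K) := by
    refine sInf_le ?_
    intro n hn A B α β hα hβ
    rw [← ENNReal.ofReal_mul (by positivity)]
    exact ENNReal.ofReal_le_ofReal (h1 n hn A B α β hα hβ)
  exact ⟨h1, h2, lt_of_le_of_lt h2 ENNReal.ofReal_lt_top⟩

end Pool.Agent.Results.MP_434093_an.LinearBound
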